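import Pool.Agent.LGroupRank.Main

/-!
Products of varieties of ℓ-groups of finite rank have finite rank.

If `V₁` is the class of all ℓ-groups satisfying a set of identities in the variables
`x_1, …, x_{n₁}`, and `V₂` is the class of all ℓ-groups satisfying a set of identities in the
variables `x_1, …, x_{n₂}`, then the product `V₁ V₂` is the class of all ℓ-groups satisfying a
set of identities in the variables `x_1, …, x_n` with `n = max 2 (n₁ + n₂)`.
-/

set_option autoImplicit false

open Pool.Agent.LGroupRank

universe u

/-- The product of two varieties of ℓ-groups defined by identities in `n₁` and in `n₂` variables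
is defined by identities in `max 2 (n₁ + n₂)` variables; so a product of two varieties of finite
rank has finite rank. -/
theorem Pool.Agent.Results.MP_4e5790_al.ProductRank.result (V₁ V₂ : LClass.{u}) (n₁ n₂ : ℕ)
    (h₁ : DefinedInVars n₁ V₁) (h₂ : DefinedInVars n₂ V₂) :
    DefinedInVars (max 2 (n₁ + n₂)) (LClass.prod V₁ V₂) :=
  definedInVars_prod h₁ h₂

/-- The same in terms of finite rank. -/
theorem Pool.Agent.Results.MP_4e5790_al.ProductRank.finiteRank (V₁ V₂ : LClass.{u})
    (h₁ : FiniteRank V₁) (h₂ : FiniteRank V₂) : FiniteRank (LClass.prod V₁ V₂) := by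
  obtain ⟨n₁, -, h₁⟩ := h₁
  obtain ⟨n₂, -, h₂⟩ := h₂
  exact ⟨max 2 (n₁ + n₂), by omega, definedInVars_prod h₁ h₂⟩
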